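import Pool.Agent.H94.PX4.M78

/-!
# HE Ext: maps of the punctured disc, the component in the torus

Adapted from `PX/Ext`.
-/

set_option autoImplicit false

open Topology Filter Metric

namespace Pool.Agent.HE

open Pool.Agent.H36.BP (EN fs wd)
open Pool.Agent.H62.EF (MN pr)
open Pool.Agent.AD (Vd)
open Pool.Agent.TG (Lat Gd)
open Pool.Agent.G3 (wt LLift)

variable {N k q r : ℕ} {Λ : AddSubgroup (Vd (k + 1))} {D : Set (Vd (k + 1))} {X : Set (Vd (k + 1) × EN N)} {F : Fin q → Vd (k + 1) × EN N → ℂ} {d : Fin q → ℕ}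
  {W : Fin q → Fin r → Vd (k + 1) →L[ℂ] ℂ}

/-- the bound of the derivative on the half plane -/
theorem HD.ext_deriv (P : HD Λ D X F d W) {h : ℂ → Vd (k + 1)}
    (hc : ∀ ζ : ℂ, ζ.re < 0 → ∃ w : ℂ → EN N, Cw X F (ball ζ (-ζ.re / 2)) w h) :
    ∃ C : ℝ, 0 < C ∧ ∀ ζ : ℂ, ζ.re < 0 → ‖deriv h ζ‖ ≤ C / (-ζ.re) := by
  obtain ⟨C, hC, hb⟩ := P.bound
  refine ⟨2 * C, by positivity, fun ζ hζ => ?_⟩
  obtain ⟨w, hw⟩ := hc ζ hζ
  obtain ⟨r, hr⟩ : ∃ r : ℝ, r = -ζ.re / 2 := ⟨_, rfl⟩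
  have hr0 : 0 < r := by rw [hr]; linarith
  rw [← hr] at hw
  have hmaps : Set.MapsTo (fun z : ℂ => ζ + (r : ℂ) * z) (ball (0 : ℂ) 1) (ball ζ r) := by
    intro z hz
    rw [mem_ball_zero_iff] at hz
    rw [mem_ball, dist_eq_norm, add_sub_cancel_left, norm_mul, Complex.norm_real,
      Real.norm_of_nonneg hr0.le]
    nlinarith
  have hda : Differentiable ℂ (fun z : ℂ => ζ + (r : ℂ) * z) := by fun_prop
  have hCp : Cw X F (ball 0 1) (fun z => w (ζ + (r : ℂ) * z)) (fun z => h (ζ + (r : ℂ) * z)) :=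
    hw.comp hda.differentiableOn hmaps
  have h1 := hb _ _ hCp
  have h2 : deriv (fun z : ℂ => h (ζ + (r : ℂ) * z)) 0 = (r : ℂ) • deriv h ζ := by
    have hd : HasDerivAt h (deriv h ζ) ζ :=
      (hw.h_diff.differentiableAt (isOpen_ball.mem_nhds (mem_ball_self hr0))).hasDerivAt
    have ha : HasDerivAt (fun z : ℂ => ζ + (r : ℂ) * z) (r : ℂ) 0 := by
      simpa using ((hasDerivAt_id (0 : ℂ)).const_mul (r : ℂ)).const_add ζ
    have hd' : HasDerivAt h (deriv h ζ) (ζ + (r : ℂ) * 0) := by simpa using hd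
    exact (HasDerivAt.scomp (0 : ℂ) hd' ha).deriv
  rw [h2, norm_smul, Complex.norm_real, Real.norm_of_nonneg hr0.le] at h1
  rw [le_div_iff₀ (by linarith)]
  have h3 : -ζ.re = 2 * r := by rw [hr]; ring
  rw [h3]
  nlinarith [norm_nonneg (deriv h ζ)]

theorem HD.base_ext (P : HD Λ D X F d W) {h : ℂ → Vd (k + 1)} (hc : ∀ ζ : ℂ, ζ.re < 0 → ∃ w : ℂ → EN N, Cw X F (ball ζ (-ζ.re / 2)) w h) (hp : ∀ ζ : ℂ, ζ.re < 0 → h (ζ + 2 * Real.pi * Complex.I) - h ζ ∈ Λ) :
    ∃ H : ℂ → Vd (k + 1), DifferentiableOn ℂ H (ball 0 1) ∧ ∀ ζ : ℂ, ζ.re < 0 → h ζ = H (Complex.exp ζ) := by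
  obtain ⟨C, hC, hb⟩ := P.ext_deriv hc
  obtain ⟨δ, hδ, hdisc⟩ := P.lat.disc
  have hre : ∀ ζ : ℂ, (ζ + 2 * Real.pi * Complex.I).re = ζ.re := by
    intro ζ
    simp
  have hdiff : ∀ ζ : ℂ, ζ.re < 0 → DifferentiableAt ℂ h ζ := by
    intro ζ hζ
    obtain ⟨w, hw⟩ := hc ζ hζ
    exact hw.h_diff.differentiableAt (isOpen_ball.mem_nhds (mem_ball_self (by linarith)))
  have hlip : ∀ ρ : ℝ, 0 < ρ → ∀ x y : ℂ, x.re ≤ -ρ → y.re ≤ -ρ → ‖h y - h x‖ ≤ C / ρ * ‖y - x‖ := by
    intro ρ hρ x y hx hy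
    refine Convex.norm_image_sub_le_of_norm_deriv_le (s := {c : ℂ | c.re ≤ -ρ}) (𝕜 := ℂ)
      (fun z hz => hdiff z (lt_of_le_of_lt hz (by linarith))) ?_ (convex_halfSpace_re_le _) hx hy
    intro z hz
    have hz' : z.re ≤ -ρ := hz
    refine (hb z (by linarith)).trans ?_
    exact div_le_div_of_nonneg_left hC.le hρ (by linarith)
  -- the periods
  have hopen : IsOpen {c : ℂ | c.re < 0} := isOpen_lt Complex.continuous_re continuous_const
  have hper : ∀ ζ : ℂ, ζ.re < 0 → h (ζ + 2 * Real.pi * Complex.I) = h ζ := by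
    obtain ⟨ρ, hρ⟩ : ∃ ρ : ℝ, ρ = 2 * Real.pi * C / δ + 1 := ⟨_, rfl⟩
    have hπ := Real.pi_pos
    have hρ0 : 0 < ρ := by rw [hρ]; positivity
    have hnear : ∀ ζ : ℂ, ζ.re ≤ -ρ → h (ζ + 2 * Real.pi * Complex.I) - h ζ = 0 := by
      intro ζ hζ
      refine hdisc _ (hp ζ (by linarith)) ?_
      refine (hlip ρ hρ0 ζ (ζ + 2 * Real.pi * Complex.I) hζ (by rw [hre]; exact hζ)).trans_lt ?_
      have e : ‖ζ + 2 * Real.pi * Complex.I - ζ‖ = 2 * Real.pi := by
        rw [add_sub_cancel_left, norm_mul, norm_mul, Complex.norm_I, Complex.norm_real,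
          Real.norm_of_nonneg hπ.le]
        simp
      rw [e, div_mul_eq_mul_div, div_lt_iff₀ hρ0, hρ]
      have : δ * (2 * Real.pi * C / δ) = 2 * Real.pi * C := by field_simp
      nlinarith
    have hg : DifferentiableOn ℂ (fun ζ => h (ζ + 2 * Real.pi * Complex.I) - h ζ)
        {c : ℂ | c.re < 0} := by
      intro ζ hζ
      have hζ' : ζ.re < 0 := hζ
      have hd1 : DifferentiableAt ℂ (fun ζ : ℂ => h (ζ + 2 * Real.pi * Complex.I)) ζ :=
        DifferentiableAt.comp ζ (hdiff (ζ + 2 * Real.pi * Complex.I) (by rw [hre]; exact hζ'))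
          (by fun_prop)
      exact (hd1.sub (hdiff ζ hζ')).differentiableWithinAt
    have hz0 : ((-(ρ + 1) : ℝ) : ℂ) ∈ {c : ℂ | c.re < 0} := by
      show ((-(ρ + 1) : ℝ) : ℂ).re < 0
      rw [Complex.ofReal_re]
      linarith
    have hev : (fun ζ => h (ζ + 2 * Real.pi * Complex.I) - h ζ) =ᶠ[𝓝 ((-(ρ + 1) : ℝ) : ℂ)] 0 := by
      have ho : IsOpen {c : ℂ | c.re < -ρ} := isOpen_lt Complex.continuous_re continuous_const
      have hm : ((-(ρ + 1) : ℝ) : ℂ) ∈ {c : ℂ | c.re < -ρ} := by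
        show ((-(ρ + 1) : ℝ) : ℂ).re < -ρ
        rw [Complex.ofReal_re]
        linarith
      filter_upwards [ho.mem_nhds hm] with ζ hζ
      exact hnear ζ (le_of_lt hζ)
    have hpc : IsPreconnected {c : ℂ | c.re < 0} := (convex_halfSpace_re_lt 0).isPreconnected
    have := (hg.analyticOnNhd hopen).eqOn_zero_of_preconnected_of_eventuallyEq_zero hpc hz0 hev
    intro ζ hζ
    exact sub_eq_zero.1 (this hζ)
  have hperZ : ∀ (n : ℤ) (ζ : ℂ), ζ.re < 0 → h (ζ + n * (2 * Real.pi * Complex.I)) = h ζ := by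
    have hreN : ∀ (n : ℤ) (ζ : ℂ), (ζ + n * (2 * Real.pi * Complex.I)).re = ζ.re := by
      intro n ζ
      simp
    intro n
    induction n using Int.induction_on with
    | zero => intro ζ _; simp
    | succ n ih =>
      intro ζ hζ
      have e : ζ + ((n : ℤ) + 1 : ℤ) * (2 * Real.pi * Complex.I) =
          (ζ + (n : ℤ) * (2 * Real.pi * Complex.I)) + 2 * Real.pi * Complex.I := by
        push_cast
        ring
      rw [e, hper _ (by rw [hreN]; exact hζ), ih ζ hζ]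
    | pred n ih =>
      intro ζ hζ
      have e : ζ + (-(n : ℤ)) * (2 * Real.pi * Complex.I) =
          (ζ + (-(n : ℤ) - 1 : ℤ) * (2 * Real.pi * Complex.I)) + 2 * Real.pi * Complex.I := by
        push_cast
        ring
      have h1 := ih ζ hζ
      have e' : ζ + ((-(n : ℤ) : ℤ) : ℂ) * (2 * Real.pi * Complex.I) =
          (ζ + (-(n : ℤ) - 1 : ℤ) * (2 * Real.pi * Complex.I)) + 2 * Real.pi * Complex.I := by
        rw [← e]
        push_cast
        ring
      rw [e', hper _ (by rw [hreN]; exact hζ)] at h1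
      exact h1
  -- the function on the punctured disc
  obtain ⟨H₀, hH₀⟩ : ∃ H₀ : ℂ → Vd (k + 1), H₀ = fun z => h (Complex.log z) := ⟨_, rfl⟩
  have hexp : ∀ ζ : ℂ, ζ.re < 0 → H₀ (Complex.exp ζ) = h ζ := by
    intro ζ hζ
    obtain ⟨n, hn⟩ := Complex.exp_eq_exp_iff_exists_int.1
      (Complex.exp_log (Complex.exp_ne_zero ζ))
    rw [hH₀]
    show h (Complex.log (Complex.exp ζ)) = h ζ
    rw [hn]
    exact hperZ n ζ hζ
  have hd0 : DifferentiableOn ℂ H₀ (ball 0 1 \ {0}) := by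
    rintro z₀ ⟨hz1, hz2⟩
    have hz0 : z₀ ≠ 0 := hz2
    have hzn : ‖z₀‖ < 1 := mem_ball_zero_iff.1 hz1
    have hlog : (Complex.log z₀).re < 0 := by
      rw [Complex.log_re]
      exact Real.log_neg (norm_pos_iff.2 hz0) hzn
    have hev : H₀ =ᶠ[𝓝 z₀] fun z => h (Complex.log z₀ + Complex.log (z / z₀)) := by
      have h1 : ∀ᶠ z in 𝓝 z₀, z ≠ 0 := isOpen_ne.mem_nhds hz0
      have h2 : ∀ᶠ z in 𝓝 z₀, z ∈ ball (0 : ℂ) 1 := isOpen_ball.mem_nhds hz1
      filter_upwards [h1, h2] with z h1 h2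
      have e1 : Complex.exp (Complex.log z₀ + Complex.log (z / z₀)) = z := by
        rw [Complex.exp_add, Complex.exp_log hz0, Complex.exp_log (div_ne_zero h1 hz0),
          mul_div_cancel₀ z hz0]
      have e2 : (Complex.log z₀ + Complex.log (z / z₀)).re < 0 := by
        rw [Complex.add_re, Complex.log_re, Complex.log_re, norm_div,
          Real.log_div (norm_ne_zero_iff.2 h1) (norm_ne_zero_iff.2 hz0)]
        have := Real.log_neg (norm_pos_iff.2 h1) (mem_ball_zero_iff.1 h2)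
        linarith
      rw [← hexp _ e2, e1]
    refine (DifferentiableAt.congr_of_eventuallyEq ?_ hev).differentiableWithinAt
    have hin : DifferentiableAt ℂ (fun z : ℂ => Complex.log z₀ + Complex.log (z / z₀)) z₀ := by
      refine (differentiableAt_const _).add (DifferentiableAt.clog (by fun_prop) ?_)
      rw [div_self hz0]
      exact Complex.one_mem_slitPlane
    refine DifferentiableAt.comp z₀ (g := h) (hdiff _ ?_) hin
    rw [div_self hz0, Complex.log_one, add_zero]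
    exact hlog
  -- growth at `0`
  have hgr : (fun z => H₀ z - H₀ 0) =o[𝓝[≠] (0 : ℂ)] fun z => (z - 0)⁻¹ := by
    have hbig : (fun z => H₀ z - H₀ 0) =O[𝓝[≠] (0 : ℂ)] fun z : ℂ =>
        C * (|Real.log ‖z‖| + Real.pi + 1) + ‖h (-1)‖ + ‖H₀ 0‖ := by
      refine Asymptotics.IsBigO.of_bound 1 ?_
      have h1 : ∀ᶠ z in 𝓝[≠] (0 : ℂ), z ≠ 0 := self_mem_nhdsWithin
      have h2 : ∀ᶠ z in 𝓝[≠] (0 : ℂ), z ∈ ball (0 : ℂ) (Real.exp (-1)) :=
        nhdsWithin_le_nhds (isOpen_ball.mem_nhds (mem_ball_self (Real.exp_pos _)))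
      filter_upwards [h1, h2] with z h1 h2
      have hn : ‖z‖ < Real.exp (-1) := mem_ball_zero_iff.1 h2
      have hl : (Complex.log z).re ≤ -1 := by
        rw [Complex.log_re, Real.log_le_iff_le_exp (norm_pos_iff.2 h1)]
        exact hn.le
      have h3 := hlip 1 one_pos (-1) (Complex.log z) (by simp) hl
      have h4 : ‖Complex.log z‖ ≤ |Real.log ‖z‖| + Real.pi := by
        refine (Complex.norm_le_abs_re_add_abs_im _).trans ?_
        rw [Complex.log_re, Complex.log_im]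
        exact add_le_add le_rfl (Complex.abs_arg_le_pi z)
      have h5 : ‖Complex.log z - -1‖ ≤ |Real.log ‖z‖| + Real.pi + 1 := by
        rw [sub_neg_eq_add]
        refine (norm_add_le _ _).trans ?_
        rw [norm_one]
        linarith
      have h6 : ‖H₀ z‖ ≤ C * (|Real.log ‖z‖| + Real.pi + 1) + ‖h (-1)‖ := by
        have e : H₀ z = (h (Complex.log z) - h (-1)) + h (-1) := by
          rw [hH₀, sub_add_cancel]
        rw [e]
        refine (norm_add_le _ _).trans (add_le_add (h3.trans ?_) le_rfl)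
        rw [div_one]
        exact mul_le_mul_of_nonneg_left h5 hC.le
      have h7 : 0 ≤ C * (|Real.log ‖z‖| + Real.pi + 1) + ‖h (-1)‖ + ‖H₀ 0‖ := by
        have := Real.pi_pos
        positivity
      rw [one_mul, Real.norm_of_nonneg h7]
      refine (norm_sub_le _ _).trans ?_
      linarith
    refine hbig.trans_isLittleO ?_
    rw [← Asymptotics.isLittleO_norm_right]
    refine Asymptotics.isLittleO_of_tendsto' ?_ ?_
    · filter_upwards [self_mem_nhdsWithin] with z hz h0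
      have hz0 : z ≠ 0 := hz
      rw [sub_zero, norm_inv, inv_eq_zero, norm_eq_zero] at h0
      exact absurd h0 hz0
    · have ht : Tendsto (fun x : ℝ => C * |x * Real.log x| +
          (C * (Real.pi + 1) + ‖h (-1)‖ + ‖H₀ 0‖) * x) (𝓝 0) (𝓝 0) := by
        have hcont : Continuous (fun x : ℝ => C * |x * Real.log x| +
          (C * (Real.pi + 1) + ‖h (-1)‖ + ‖H₀ 0‖) * x) := by
          have := Real.continuous_mul_log
          fun_prop
        have := hcont.tendsto 0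
        simpa using this
      have hn : Tendsto (fun z : ℂ => ‖z‖) (𝓝[≠] 0) (𝓝 0) := by
        have : Tendsto (fun z : ℂ => ‖z‖) (𝓝 0) (𝓝 ‖(0 : ℂ)‖) := continuous_norm.tendsto 0
        rw [norm_zero] at this
        exact this.mono_left nhdsWithin_le_nhds
      refine (ht.comp hn).congr fun z => ?_
      show C * |‖z‖ * Real.log ‖z‖| + (C * (Real.pi + 1) + ‖h (-1)‖ + ‖H₀ 0‖) * ‖z‖ = _
      rw [sub_zero, norm_inv, div_inv_eq_mul, abs_mul, abs_norm]
      ring
  refine ⟨Function.update H₀ 0 (limUnder (𝓝[≠] 0) H₀),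
    Complex.differentiableOn_update_limUnder_of_isLittleO (isOpen_ball.mem_nhds
      (mem_ball_self one_pos)) hd0 hgr, fun ζ hζ => ?_⟩
  rw [Function.update_of_ne (Complex.exp_ne_zero ζ), hexp ζ hζ]

end Pool.Agent.HE
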