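import Pool.Agent.H94.PX4.M05
import Pool.Agent.H94.PX4.M32

/-!
# HE Lip: the curves are Lipschitz over `Gd D δ`

Adapted from `PX/Lip`.
-/

set_option autoImplicit false

open Topology Filter Metric

namespace Pool.Agent.HE

open Pool.Agent.H36.BP (EN fs wd)
open Pool.Agent.H62.EF (MN pr)
open Pool.Agent.AD (Vd)
open Pool.Agent.TG (Lat)
open Pool.Agent.G3 (wt LLift)

variable {N k q r : ℕ} {Λ : AddSubgroup (Vd (k + 1))} {D : Set (Vd (k + 1))} {X : Set (Vd (k + 1) × EN N)} {F : Fin q → Vd (k + 1) × EN N → ℂ} {d : Fin q → ℕ}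
  {W : Fin q → Fin r → Vd (k + 1) →L[ℂ] ℂ}

/-- Hurwitz: the piece is identically zero on the limit curve or has no zero -/
lemma Lip_hur {m : ℕ} {Q : Fin m → Vd (k + 1) × EN N → ℂ} {e : Fin m → ℕ} {ρ : ℝ} {w₀ : Vd (k + 1)} (P : Pc X F w₀ Q e ρ) (j : Fin m) {𝒰 : Ultrafilter ℕ} {g : ℕ → ℂ → EN N}
    {hh : ℕ → ℂ → Vd (k + 1)} {G : ℂ → EN N}
    (hcp : ∀ n : ℕ, Cw X F (ball 0 ((n : ℝ) + 1)) (g n) (hh n)) (hρ : Tendsto (fun n : ℕ => (n : ℝ) + 1) 𝒰 atTop)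
    (hun : ∀ R : ℝ, ∀ᶠ n in (𝒰 : Filter ℕ), ∀ z ∈ closedBall (0 : ℂ) R, hh n z ∈ ball w₀ ρ)
    (hlim : ∀ (z : ℕ → ℂ) (z₀ : ℂ), Tendsto z 𝒰 (𝓝 z₀) → Tendsto (fun n => hh n (z n)) 𝒰 (𝓝 w₀)) (hG : Differentiable ℂ G)
    (hloc : ∀ z₀, ∃ (r : ℝ) (φ : ℕ → ℂ → EN N) (ψ : ℂ → EN N), 0 < r ∧
        (∀ᶠ n in (𝒰 : Filter ℕ), DifferentiableOn ℂ (φ n) (ball z₀ r) ∧ ∀ z ∈ ball z₀ r, ∃ c : ℂ, c ≠ 0 ∧ φ n z = c • g n z) ∧
        DifferentiableOn ℂ ψ (ball z₀ r) ∧ (∀ z ∈ ball z₀ r, ∃ c : ℂ, c ≠ 0 ∧ ψ z = c • G z) ∧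
        TendstoLocallyUniformlyOn φ ψ 𝒰 (ball z₀ r)) :
    (∀ z, Q j (w₀, G z) = 0) ∨ ∀ z, Q j (w₀, G z) ≠ 0 := by
  by_cases hex : ∃ z₁, Q j (w₀, G z₁) = 0
  swap
  · right
    intro z hz
    exact hex ⟨z, hz⟩
  left
  obtain ⟨z₁, hz₁⟩ := hex
  obtain ⟨r, φ, ψ, hr, hφ, hψ, hψG, hconv⟩ := hloc z₁
  have hw₀ : w₀ ∈ ball w₀ ρ := mem_ball_self P.pos
  have hop : IsOpen (ball w₀ ρ ×ˢ (Set.univ : Set (EN N))) := isOpen_ball.prod isOpen_univ
  have hcont : ∀ x : EN N, ContinuousAt (Q j) (w₀, x) := fun x => ((P.an j).differentiableAt (hop.mem_nhds ⟨hw₀, Set.mem_univ x⟩)).continuousAt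
  have hpair : Differentiable ℂ fun x : EN N => (w₀, x) := (differentiable_const w₀).prodMk differentiable_id
  have hF0 : Differentiable ℂ fun x : EN N => Q j (w₀, x) := fun x =>
    DifferentiableAt.comp x (g := Q j) (f := fun x : EN N => (w₀, x)) ((P.an j).differentiableAt (hop.mem_nhds ⟨hw₀, Set.mem_univ x⟩)) (hpair x)
  have hbig : ∀ᶠ n : ℕ in (𝒰 : Filter ℕ), ball z₁ r ⊆ ball (0 : ℂ) ((n : ℝ) + 1) ∧ ∀ z ∈ ball z₁ r, hh n z ∈ ball w₀ ρ := by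
    filter_upwards [hρ.eventually_gt_atTop (‖z₁‖ + r), hun (‖z₁‖ + r)] with n hn hn2
    have h1 : ∀ z ∈ ball z₁ r, ‖z‖ < ‖z₁‖ + r := by
      intro z hz
      rw [mem_ball, dist_eq_norm] at hz
      have := norm_add_le (z - z₁) z₁
      rw [sub_add_cancel] at this
      linarith
    refine ⟨fun z hz => ?_, fun z hz => hn2 z ?_⟩
    · rw [mem_ball_zero_iff]
      have := h1 z hz
      linarith
    · rw [mem_closedBall_zero_iff]
      exact (h1 z hz).le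
  have hH := Pool.Agent.H62.Log.hurwitz 𝒰 (φ := fun n z => Q j (hh n z, φ n z)) (ψ := fun z => Q j (w₀, ψ z)) (a := z₁) (r := r)
    (by
      filter_upwards [hφ, hbig] with n hn hb
      have h9 : DifferentiableOn ℂ (fun z => (hh n z, φ n z)) (ball z₁ r) := ((hcp n).h_diff.mono hb.1).prodMk hn.1
      exact (P.an j).comp h9 fun z hz => ⟨hb.2 z hz, Set.mem_univ _⟩)
    (by
      filter_upwards [hφ, hbig] with n hn hb z hz
      obtain ⟨c, hc, he⟩ := hn.2 z hz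
      simp only [he]
      rw [P.hom j _ (hb.2 z hz)]
      exact mul_ne_zero (pow_ne_zero _ hc) (P.ne j _ (hb.2 z hz) _ ((hcp n).w_ne z (hb.1 hz)) ((hcp n).mem z (hb.1 hz)) fun i => (hcp n).ne i z (hb.1 hz)))
    (Differentiable.comp_differentiableOn (g := fun x : EN N => Q j (w₀, x)) (f := ψ) hF0 hψ)
    (by
      intro z z₀ hz₀ hz
      have h1 := hlim z z₀ hz
      have h2 : Tendsto (fun n => φ n (z n)) 𝒰 (𝓝 (ψ z₀)) := by
        refine hconv.tendsto_comp (hψ.continuousOn.continuousWithinAt hz₀) hz₀ ?_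
        rw [tendsto_nhdsWithin_iff]
        exact ⟨hz, hz.eventually (isOpen_ball.mem_nhds hz₀)⟩
      exact Tendsto.comp (g := Q j) (f := fun n => (hh n (z n), φ n (z n))) (hcont (ψ z₀)).tendsto (h1.prodMk_nhds h2))
  have hz₁b : z₁ ∈ ball z₁ r := mem_ball_self hr
  have hloc0 : ∀ z ∈ ball z₁ r, Q j (w₀, G z) = 0 := by
    rcases hH with h | h
    · intro z hz
      obtain ⟨c, hc, he⟩ := hψG z hz
      have h1 := h z hz
      simp only [he] at h1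
      rw [P.hom j _ hw₀] at h1
      exact (mul_eq_zero.mp h1).resolve_left (pow_ne_zero _ hc)
    · exfalso
      obtain ⟨c, hc, he⟩ := hψG z₁ hz₁b
      apply h z₁ hz₁b
      simp only [he]
      rw [P.hom j _ hw₀, hz₁, mul_zero]
  have hf : Differentiable ℂ fun z => Q j (w₀, G z) := Differentiable.comp (g := fun x : EN N => Q j (w₀, x)) (f := G) hF0 hG
  have han : AnalyticOnNhd ℂ (fun z => Q j (w₀, G z)) Set.univ := fun z _ => hf.analyticAt z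
  have h2 := han.eqOn_zero_of_preconnected_of_eventuallyEq_zero isPreconnected_univ (Set.mem_univ z₁)
    (Filter.mem_of_superset (isOpen_ball.mem_nhds hz₁b) fun z hz => hloc0 z hz)
  intro z
  exact h2 (Set.mem_univ z)

end Pool.Agent.HE
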