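import Pool.Agent.H94.PX4.H62.EF.LimL
import Pool.Agent.H94.PX4.HE.Lip
import Pool.Agent.H94.PX4.M75

/-!
# HE Lip: the curves are Lipschitz over `Gd D δ`

Adapted from `PX/Lip`.
-/

set_option autoImplicit false

open Topology Filter Metric

namespace Pool.Agent.HE

open Pool.Agent.H36.BP (EN fs wd)
open Pool.Agent.H62.EF (MN pr)
open Pool.Agent.AD (Vd)
open Pool.Agent.TG (Lat Gd)
open Pool.Agent.G3 (wt LLift)

variable {N k q r : ℕ} {Λ : AddSubgroup (Vd (k + 1))} {D : Set (Vd (k + 1))} {X : Set (Vd (k + 1) × EN N)} {F : Fin q → Vd (k + 1) × EN N → ℂ} {d : Fin q → ℕ}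
  {W : Fin q → Fin r → Vd (k + 1) →L[ℂ] ℂ}

/-- normalisation: the centre is `0`, the value at the centre is bounded, the disc is small -/
private lemma Lip_norm (P : HD Λ D X F d W) {δ H r₀ s : ℝ} (hs : 0 < s) (hsr : s ≤ r₀) :
    ∃ R : ℝ, 0 < R ∧ ∀ (w : ℂ → EN N) (h : ℂ → Vd (k + 1)) (z : ℂ), Cw X F (ball z r₀) w h → (∀ ζ ∈ ball z r₀, ‖deriv h ζ‖ ≤ H) → h z ∈ Gd D δ →
      ∃ (w' : ℂ → EN N) (h' : ℂ → Vd (k + 1)), Cw X F (ball 0 s) w' h' ∧ (∀ ζ ∈ ball (0 : ℂ) s, ∀ ζ' ∈ ball (0 : ℂ) s, ‖h' ζ - h' ζ'‖ ≤ H * ‖ζ - ζ'‖) ∧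
        h' 0 ∈ Gd D δ ∧ ‖h' 0‖ ≤ R ∧ fs (w' 0) (deriv w' 0) = fs (w z) (deriv w z) := by
  obtain ⟨R, hR0, hR⟩ := P.lat.cpt
  refine ⟨R, hR0, fun w h z hc hd hz => ?_⟩
  obtain ⟨l, hl, hlR⟩ := hR (h z)
  have hmap : Set.MapsTo (fun ζ : ℂ => z + ζ) (ball 0 s) (ball z r₀) := by
    intro ζ hζ
    rw [mem_ball_zero_iff] at hζ
    rw [mem_ball, dist_eq_norm]
    have : z + ζ - z = ζ := by ring
    rw [this]
    linarith
  have hc1 : Cw X F (ball (0 : ℂ) s) (fun ζ => w (z + ζ)) (fun ζ => h (z + ζ)) :=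
    hc.comp (φ := fun ζ : ℂ => z + ζ) (differentiable_id.const_add z).differentiableOn hmap
  have hc2 := Cw.add P hc1 (Λ.neg_mem hl)
  refine ⟨fun ζ => w (z + ζ), fun ζ => h (z + ζ) + -l, hc2, ?_, ?_, ?_, ?_⟩
  · have hder : ∀ ζ ∈ ball (0 : ℂ) s, ‖deriv (fun ζ => h (z + ζ)) ζ‖ ≤ H := by
      intro ζ hζ
      have : deriv (fun ζ => h (z + ζ)) ζ = deriv h (z + ζ) := by
        rw [deriv_comp_const_add]
      rw [this]
      exact hd _ (hmap hζ)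
    intro ζ hζ ζ' hζ'
    have h1 := (convex_ball (0 : ℂ) s).norm_image_sub_le_of_norm_deriv_le (f := fun ζ => h (z + ζ)) (C := H)
      (fun x hx => hc1.h_diff.differentiableAt (isOpen_ball.mem_nhds hx)) hder hζ' hζ
    have h2 : h (z + ζ) + -l - (h (z + ζ') + -l) = h (z + ζ) - h (z + ζ') := by abel
    simp only [h2]
    exact h1
  · simp only [add_zero]
    exact P.gd_add δ (Λ.neg_mem hl) hz
  · simp only [add_zero]
    rwa [← sub_eq_add_neg]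
  · rw [deriv_comp_const_add]
    simp only [add_zero]

theorem HD.lip (P : HD Λ D X F d W) {δ H r₀ : ℝ} (hδ : 0 < δ) (hH : 0 ≤ H) (hr₀ : 0 < r₀) : ∃ L : ℝ, 0 < L ∧ ∀ (w : ℂ → EN N) (h : ℂ → Vd (k + 1)) (z : ℂ),
    Cw X F (ball z r₀) w h → (∀ ζ ∈ ball z r₀, ‖deriv h ζ‖ ≤ H) → h z ∈ Gd D δ → fs (w z) (deriv w z) ≤ L := by
  by_contra hcon
  push Not at hcon
  set s : ℝ := min r₀ (δ / (4 * (H + 1))) with hsdef
  have hH1 : 0 < H + 1 := by linarith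
  have hs : 0 < s := lt_min hr₀ (by positivity)
  have hsr : s ≤ r₀ := min_le_left _ _
  have hHs : H * s ≤ δ / 4 := by
    have h1 : s ≤ δ / (4 * (H + 1)) := min_le_right _ _
    calc H * s ≤ (H + 1) * s := by nlinarith
      _ ≤ (H + 1) * (δ / (4 * (H + 1))) := mul_le_mul_of_nonneg_left h1 hH1.le
      _ = δ / 4 := by
        field_simp
  obtain ⟨R, hR0, hR⟩ := Lip_norm (δ := δ) (H := H) P hs hsr
  have hbig : ∀ n : ℕ, ∃ (f : ℂ → EN N) (h : ℂ → Vd (k + 1)), Cw X F (ball 0 s) f h ∧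
      (∀ ζ ∈ ball (0 : ℂ) s, ∀ ζ' ∈ ball (0 : ℂ) s, ‖h ζ - h ζ'‖ ≤ H * ‖ζ - ζ'‖) ∧ h 0 ∈ Gd D δ ∧ ‖h 0‖ ≤ R ∧
      4 * ((n : ℝ) + 1) / s < fs (f 0) (deriv f 0) := by
    intro n
    obtain ⟨w, h, z, h1, h2, h3, h4⟩ := hcon (4 * ((n : ℝ) + 1) / s) (by positivity)
    obtain ⟨w', h', h5, h6, h7, h8, h9⟩ := hR w h z h1 h2 h3
    exact ⟨w', h', h5, h6, h7, h8, by rw [h9]; exact h4⟩
  choose f h hcp hlip hGd hRn hFb using hbig
  have hF0 : ∀ n, ∀ z ∈ ball (0 : ℂ) s, f n z ≠ 0 := fun n z hz => (hcp n).w_ne z hz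
  have hmul : ∀ z : ℂ, z ∈ ball (0 : ℂ) 1 → (s : ℂ) * z ∈ ball (0 : ℂ) s := by
    intro z hz
    rw [mem_ball_zero_iff] at hz ⊢
    rw [norm_mul, Complex.norm_real, Real.norm_of_nonneg hs.le]
    calc s * ‖z‖ < s * 1 := mul_lt_mul_of_pos_left hz hs
      _ = s := mul_one s
  have hresc : ∀ n : ℕ, ∃ (z₀ : ℂ) (a : ℝ), 4 * ((n : ℝ) + 1) < a ∧
      (∀ ζ ∈ ball (0 : ℂ) (n + 1), ‖z₀ + ((a⁻¹ : ℝ) : ℂ) * ζ‖ ≤ 1 / 2) ∧
      fs (f n ((s : ℂ) * z₀)) (deriv (fun ζ => f n ((s : ℂ) * (z₀ + ((a⁻¹ : ℝ) : ℂ) * ζ))) 0) = 1 ∧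
      ∀ ζ ∈ ball (0 : ℂ) (n + 1), fs (f n ((s : ℂ) * (z₀ + ((a⁻¹ : ℝ) : ℂ) * ζ)))
        (deriv (fun ζ => f n ((s : ℂ) * (z₀ + ((a⁻¹ : ℝ) : ℂ) * ζ))) ζ) ≤ 2 := by
    intro n
    have hd : DifferentiableOn ℂ (fun z => f n ((s : ℂ) * z)) (ball 0 1) :=
      (hcp n).w_diff.comp (differentiable_id.const_mul _).differentiableOn hmul
    refine Pool.Agent.AD.rescale_disc hd (fun z hz => hF0 n _ (hmul z hz)) n ?_
    have h1 : HasDerivAt (fun z : ℂ => (s : ℂ) * z) (s : ℂ) 0 := by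
      simpa using (hasDerivAt_id (0 : ℂ)).const_mul (s : ℂ)
    have h2 : deriv (fun z => f n ((s : ℂ) * z)) 0 = (s : ℂ) • deriv (f n) 0 := by
      have h4 : HasDerivAt (f n) (deriv (f n) 0) ((s : ℂ) * 0) := by
        rw [mul_zero]
        exact ((hcp n).w_diff.differentiableAt (isOpen_ball.mem_nhds (mem_ball_self hs))).hasDerivAt
      exact (h4.scomp 0 h1).deriv
    rw [h2, Pool.Agent.H36.BP.fs_smul_right, Complex.norm_real, Real.norm_of_nonneg hs.le, mul_zero]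
    have h4 := hFb n
    rw [div_lt_iff₀ hs] at h4
    linarith
  choose z₀ a ha hz₀ h1 h2 using hresc
  have ha0 : ∀ n, 0 < a n := fun n => lt_trans (by positivity) (ha n)
  have hz₀n : ∀ n, ‖z₀ n‖ ≤ 1 / 2 := by
    intro n
    have h3 := hz₀ n 0 (mem_ball_self (by positivity))
    rwa [mul_zero, add_zero] at h3
  set g : ℕ → ℂ → EN N := fun n ζ => f n ((s : ℂ) * (z₀ n + (((a n)⁻¹ : ℝ) : ℂ) * ζ)) with hgdef
  set hh : ℕ → ℂ → Vd (k + 1) := fun n ζ => h n ((s : ℂ) * (z₀ n + (((a n)⁻¹ : ℝ) : ℂ) * ζ)) with hhdef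
  have hin : ∀ n : ℕ, ∀ ζ ∈ ball (0 : ℂ) ((n : ℝ) + 1), (s : ℂ) * (z₀ n + (((a n)⁻¹ : ℝ) : ℂ) * ζ) ∈ ball (0 : ℂ) s := by
    intro n ζ hζ
    apply hmul
    rw [mem_ball_zero_iff]
    have h3 := hz₀ n ζ hζ
    linarith
  have hcpg : ∀ n : ℕ, Cw X F (ball 0 ((n : ℝ) + 1)) (g n) (hh n) := by
    intro n
    exact (hcp n).comp (φ := fun ζ => (s : ℂ) * (z₀ n + (((a n)⁻¹ : ℝ) : ℂ) * ζ))
      (((differentiable_id.const_mul _).const_add _).const_mul _).differentiableOn (hin n)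
  have hg0 : ∀ n : ℕ, ∀ ζ ∈ ball (0 : ℂ) ((n : ℝ) + 1), g n ζ ≠ 0 := fun n ζ hζ => hF0 n _ (hin n ζ hζ)
  have hg1 : ∀ n, fs (g n 0) (deriv (g n) 0) = 1 := by
    intro n
    have h3 := h1 n
    rw [hgdef]
    simpa only [mul_zero, add_zero] using h3
  have h0b : ∀ n : ℕ, (0 : ℂ) ∈ ball (0 : ℂ) ((n : ℝ) + 1) := fun n => mem_ball_self (by positivity)
  have hwy : ∀ n, ‖hh n 0 - h n 0‖ ≤ δ / 4 := by
    intro n
    have h3 := hlip n _ (hin n 0 (h0b n)) 0 (mem_ball_self hs)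
    refine h3.trans (le_trans ?_ hHs)
    rw [mul_zero, add_zero, sub_zero, norm_mul, Complex.norm_real, Real.norm_of_nonneg hs.le]
    refine mul_le_mul_of_nonneg_left ?_ hH
    have := hz₀n n
    nlinarith
  have hwG : ∀ n, hh n 0 ∈ Gd D (δ / 2) := by
    intro n
    have h3 := Pool.Agent.TG.gd_near (hGd n) (hwy n)
    exact Pool.Agent.TG.gd_mono (by linarith) h3
  have hwR : ∀ n, hh n 0 ∈ closedBall (0 : Vd (k + 1)) (R + δ / 4) := by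
    intro n
    rw [mem_closedBall_zero_iff]
    have h3 : hh n 0 = h n 0 + (hh n 0 - h n 0) := by abel
    rw [h3]
    exact (norm_add_le _ _).trans (add_le_add (hRn n) (hwy n))
  set 𝒰 : Ultrafilter ℕ := hyperfilter ℕ with h𝒰
  have hle : (𝒰 : Filter ℕ) ≤ atTop := Nat.hyperfilter_le_atTop
  obtain ⟨w₀, -, hw₀⟩ := (isCompact_closedBall (0 : Vd (k + 1)) (R + δ / 4)).ultrafilter_le_nhds (𝒰.map fun n => hh n 0) (by
    rw [Filter.le_principal_iff, Ultrafilter.coe_map, Filter.mem_map]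
    exact Filter.univ_mem' hwR)
  have hwt : Tendsto (fun n => hh n 0) 𝒰 (𝓝 w₀) := hw₀
  have hw₀G : w₀ ∈ Gd D (δ / 2) := (Pool.Agent.TG.gd_closed D (δ / 2)).mem_of_tendsto hwt (Eventually.of_forall hwG)
  have hw₀D : w₀ ∉ D := Pool.Agent.TG.gd_notMem (by positivity) hw₀G
  have hρ : Tendsto (fun n : ℕ => (n : ℝ) + 1) 𝒰 atTop :=
    (tendsto_atTop_add_const_right _ _ tendsto_natCast_atTop_atTop).mono_left hle
  have hainv : Tendsto (fun n => (a n)⁻¹) 𝒰 (𝓝 0) := by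
    have h3 : Tendsto a 𝒰 atTop := by
      refine tendsto_atTop_mono (fun n => ?_) hρ
      have := ha n
      have h4 : (0 : ℝ) ≤ n := Nat.cast_nonneg n
      linarith
    exact tendsto_inv_atTop_zero.comp h3
  obtain ⟨G, hG, hGX, -, hfs, hloc⟩ := Pool.Agent.H62.EF.limit_curves (Pool.Agent.TG.isCone_ne (N := N)) (L := 2) two_pos 𝒰 g (fun n : ℕ => (n : ℝ) + 1) hρ
    (Eventually.of_forall fun n => ⟨(hcpg n).w_diff, fun z hz => ⟨hg0 n z hz, h2 n z hz⟩⟩)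
  have hG0 : ∀ z, G z ≠ 0 := fun z => hGX z
  -- the limit is not constant
  have hone : fs (G 0) (deriv G 0) = 1 := by
    have h3 := hfs 0
    simp only [hg1] at h3
    exact tendsto_nhds_unique h3 tendsto_const_nhds |>.symm ▸ rfl
  -- the base points converge
  have hunif : ∀ R' ε : ℝ, 0 < ε → ∀ᶠ n in (𝒰 : Filter ℕ), ∀ z ∈ closedBall (0 : ℂ) R', ‖hh n z - w₀‖ < ε := by
    intro R' ε hε
    have h5 : Tendsto (fun n => H * (s * (a n)⁻¹ * |R'|)) 𝒰 (𝓝 0) := by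
      have h6 := ((hainv.const_mul s).mul_const |R'|).const_mul H
      rwa [mul_zero, zero_mul, mul_zero] at h6
    have h6 : Tendsto (fun n => ‖hh n 0 - w₀‖) 𝒰 (𝓝 0) := by
      have := (hwt.sub_const w₀).norm
      rwa [sub_self, norm_zero] at this
    filter_upwards [h5.eventually_lt_const (half_pos hε), h6.eventually_lt_const (half_pos hε), hρ.eventually_gt_atTop |R'|] with n hn1 hn2 hn3 z hz
    rw [mem_closedBall_zero_iff] at hz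
    have hz' : ‖z‖ ≤ |R'| := hz.trans (le_abs_self R')
    have hb : z ∈ ball (0 : ℂ) ((n : ℝ) + 1) := by
      rw [mem_ball_zero_iff]
      linarith
    have h7 : (s : ℂ) * (z₀ n + (((a n)⁻¹ : ℝ) : ℂ) * z) - (s : ℂ) * (z₀ n + (((a n)⁻¹ : ℝ) : ℂ) * 0) = (s : ℂ) * (((a n)⁻¹ : ℝ) : ℂ) * z := by
      ring
    have h8 := hlip n _ (hin n _ hb) _ (hin n 0 (h0b n))
    rw [h7, norm_mul, norm_mul, Complex.norm_real, Complex.norm_real, Real.norm_of_nonneg hs.le, Real.norm_of_nonneg (inv_nonneg.mpr (ha0 n).le)] at h8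
    have h9 : H * (s * (a n)⁻¹ * ‖z‖) ≤ H * (s * (a n)⁻¹ * |R'|) := by
      have := inv_nonneg.mpr (ha0 n).le
      gcongr
    have e : hh n z - w₀ = (hh n z - hh n 0) + (hh n 0 - w₀) := by abel
    rw [e]
    refine (norm_add_le _ _).trans_lt ?_
    have h10 : ‖hh n z - hh n 0‖ ≤ H * (s * (a n)⁻¹ * ‖z‖) := h8
    linarith
  have hlim : ∀ (z : ℕ → ℂ) (z₁ : ℂ), Tendsto z 𝒰 (𝓝 z₁) → Tendsto (fun n => hh n (z n)) 𝒰 (𝓝 w₀) := by
    intro z z₁ hz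
    rw [tendsto_iff_norm_sub_tendsto_zero, Metric.tendsto_nhds]
    intro ε hε
    have hzn : ∀ᶠ n in (𝒰 : Filter ℕ), ‖z n‖ < ‖z₁‖ + 1 := hz.norm.eventually_lt_const (by linarith)
    filter_upwards [hzn, hunif (‖z₁‖ + 1) ε hε] with n hn1 hn2
    rw [dist_zero_right, norm_norm]
    exact hn2 _ (by rw [mem_closedBall_zero_iff]; exact hn1.le)
  -- the limit has bounded derivative
  have hbd : ∀ z, fs (G z) (deriv G z) ≤ 2 := by
    intro z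
    refine le_of_tendsto (hfs z) ?_
    filter_upwards [hρ.eventually_gt_atTop ‖z‖] with n hn
    exact h2 n z (by rw [mem_ball_zero_iff]; exact hn)
  -- the limit lies in the fibre
  have hGX' : ∀ z, (w₀, G z) ∈ X := by
    intro z₁
    obtain ⟨r, φ, ψ, hr, hφ, hψ, hψG, hconv⟩ := hloc z₁
    have hz₁b : z₁ ∈ ball z₁ r := mem_ball_self hr
    have h5 : Tendsto (fun n => φ n z₁) 𝒰 (𝓝 (ψ z₁)) := hconv.tendsto_at hz₁b
    have h6 : Tendsto (fun n => (hh n z₁, φ n z₁)) 𝒰 (𝓝 (w₀, ψ z₁)) := (hlim (fun _ => z₁) z₁ tendsto_const_nhds).prodMk_nhds h5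
    have h7 : (w₀, ψ z₁) ∈ X := by
      refine P.X_closed.mem_of_tendsto h6 ?_
      filter_upwards [hφ, hρ.eventually_gt_atTop ‖z₁‖] with n hn hn2
      obtain ⟨c, hc, he⟩ := hn.2 z₁ hz₁b
      rw [he]
      exact P.X_smul c _ _ ((hcpg n).mem z₁ (by rw [mem_ball_zero_iff]; exact hn2))
    obtain ⟨c, hc, he⟩ := hψG z₁ hz₁b
    have h8 : G z₁ = c⁻¹ • ψ z₁ := by rw [he, smul_smul, inv_mul_cancel₀ hc, one_smul]
    rw [h8]
    exact P.X_smul _ _ _ h7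
  obtain ⟨m, Q, e, ρ, hPc⟩ := P.fib w₀ hw₀D
  have hc : ∀ z w : ℂ, ∃ c : ℂ, G z = c • G w :=
    hPc.const G hG hG0 hGX' ⟨2, hbd⟩ fun j => Lip_hur hPc j hcpg hρ (fun R' => (hunif R' ρ hPc.pos).mono fun n hn z hz => by
      rw [mem_ball, dist_eq_norm]
      exact hn z hz) hlim hG hloc
  obtain ⟨b, hb⟩ := Pool.Agent.H36.BP.Brody_deriv_line (hG 0) (fun z => hc z 0)
  have h3 : wd (G 0) (deriv G 0) = 0 := (Pool.Agent.H36.BP.wd_eq_zero (hG0 0)).mpr ⟨b, hb⟩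
  unfold fs at hone
  rw [h3, zero_div] at hone
  exact zero_ne_one hone

end Pool.Agent.HE
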