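import Pool.Agent.H94.PX4.HE.Lim_1

/-!
# HE Spr: small forms on long curves spread

If `qf (F j)` is very small at `0` on a long curve then it is small at all points over `Gd D δ'` of a large disc: by contradiction, along an ultrafilter the curves converge to a curve over a line, on which `F j` is `0` at `0` and not `0` at
some other point, against `ls_zr`.
-/

set_option autoImplicit false

open Topology Filter Metric

namespace Pool.Agent.HE

open Pool.Agent.H36.BP (EN fs wd)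
open Pool.Agent.H62.EF (MN pr)
open Pool.Agent.AD (Vd)
open Pool.Agent.TG (Lat Gd)
open Pool.Agent.G3 (wt LLift)

variable {N k q r : ℕ} {Λ : AddSubgroup (Vd (k + 1))} {D : Set (Vd (k + 1))} {X : Set (Vd (k + 1) × EN N)} {F : Fin q → Vd (k + 1) × EN N → ℂ} {d : Fin q → ℕ}
  {W : Fin q → Fin r → Vd (k + 1) →L[ℂ] ℂ}

/-- limit points along an ultrafilter -/
private theorem Spr_lim {E : Type*} [SeminormedAddCommGroup E] [ProperSpace E] (𝒰 : Ultrafilter ℕ) {R : ℝ} (f : ℕ → E) (hf : ∀ n, ‖f n‖ ≤ R) :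
    ∃ v : E, Tendsto f 𝒰 (𝓝 v) := by
  obtain ⟨v, -, hv⟩ := (isCompact_closedBall (0 : E) R).ultrafilter_le_nhds (𝒰.map f) (by
    rw [Filter.le_principal_iff, Ultrafilter.coe_map, Filter.mem_map]
    exact Filter.univ_mem' fun n => by simpa using hf n)
  exact ⟨v, hv⟩

/-- the normalised lifts converge to a lift of the limit -/
private theorem Spr_vec (𝒰 : Ultrafilter ℕ) {x : ℕ → EN N} (hx : ∀ᶠ n in (𝒰 : Filter ℕ), x n ≠ 0) {m : MN N} (hm : Tendsto (fun n => pr (x n)) 𝒰 (𝓝 m)) :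
    ∃ v : EN N, v ≠ 0 ∧ pr v = m ∧ Tendsto (fun n => (((‖x n‖⁻¹ : ℝ)) : ℂ) • x n) 𝒰 (𝓝 v) := by
  have h1 : ∀ n, ‖(((‖x n‖⁻¹ : ℝ)) : ℂ) • x n‖ ≤ 1 := by
    intro n
    rw [norm_smul, Complex.norm_real, norm_inv, norm_norm]
    exact inv_mul_le_one
  obtain ⟨v, hv⟩ := Spr_lim 𝒰 _ h1
  have h2 : ‖v‖ = 1 := by
    refine tendsto_nhds_unique hv.norm (tendsto_const_nhds.congr' ?_)
    filter_upwards [hx] with n hn
    rw [norm_smul, Complex.norm_real, norm_inv, norm_norm, inv_mul_cancel₀ (norm_ne_zero_iff.2 hn)]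
  have hv0 : v ≠ 0 := by
    rintro rfl
    rw [norm_zero] at h2
    exact zero_ne_one h2
  refine ⟨v, hv0, ?_, hv⟩
  refine tendsto_nhds_unique ?_ hm
  refine (((Pool.Agent.H62.EF.continuousAt_pr hv0).tendsto.comp hv).congr' ?_)
  filter_upwards [hx] with n hn
  have hc : (((‖x n‖⁻¹ : ℝ)) : ℂ) ≠ 0 := by
    rw [Complex.ofReal_ne_zero]
    exact inv_ne_zero (norm_ne_zero_iff.2 hn)
  exact Pool.Agent.H62.EF.pr_smul (x n) hc

theorem HD.spread (P : HD Λ D X F d W) (j : Fin q) {δ δ' A₁ A₂ T c' : ℝ} (hδ : 0 < δ) (hδ' : 0 < δ') (hA₁ : 0 < A₁) (hc' : 0 < c') :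
    ∃ R c η : ℝ, 0 < R ∧ 0 < c ∧ 0 < η ∧ ∀ (w : ℂ → EN N) (h : ℂ → Vd (k + 1)) (a : Vd (k + 1)), A₁ ≤ ‖a‖ → ‖a‖ ≤ A₂ → Cw X F (ball 0 R) w h →
      (∀ z ∈ ball (0 : ℂ) R, ‖h z - (h 0 + z • a)‖ ≤ η) → h 0 ∈ Gd D δ → qf (F j) (d j) (W j) (h 0) (w 0) < c →
        ∀ z : ℂ, ‖z‖ ≤ T → h z ∈ Gd D δ' → qf (F j) (d j) (W j) (h z) (w z) < c' := by
  by_contra hcon
  push Not at hcon
  obtain ⟨R₀, hR₀, hcov⟩ := P.lat.cpt
  have hbig : ∀ n : ℕ, ∃ (w : ℂ → EN N) (h : ℂ → Vd (k + 1)) (a : Vd (k + 1)) (z : ℂ), A₁ ≤ ‖a‖ ∧ ‖a‖ ≤ A₂ ∧ Cw X F (ball 0 ((n : ℝ) + 1)) w h ∧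
      (∀ z ∈ ball (0 : ℂ) ((n : ℝ) + 1), ‖h z - (h 0 + z • a)‖ ≤ 1 / ((n : ℝ) + 1)) ∧ h 0 ∈ Gd D δ ∧ ‖h 0‖ ≤ R₀ ∧
      qf (F j) (d j) (W j) (h 0) (w 0) < 1 / ((n : ℝ) + 1) ∧ ‖z‖ ≤ T ∧ h z ∈ Gd D δ' ∧ c' ≤ qf (F j) (d j) (W j) (h z) (w z) := by
    intro n
    obtain ⟨w, h, a, h1, h2, h3, h4, h5, h6, z, h7, h8, h9⟩ := hcon ((n : ℝ) + 1) (1 / ((n : ℝ) + 1)) (1 / ((n : ℝ) + 1)) (by positivity) (by positivity) (by positivity)
    obtain ⟨l, hl, hlR⟩ := hcov (h 0)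
    refine ⟨w, fun z => h z + -l, a, z, h1, h2, Cw.add P h3 (Λ.neg_mem hl), ?_, P.gd_add δ (Λ.neg_mem hl) h5, by simpa only [← sub_eq_add_neg] using hlR, ?_, h7,
      P.gd_add δ' (Λ.neg_mem hl) h8, ?_⟩
    · intro z hz
      have e : h z + -l - (h 0 + -l + z • a) = h z - (h 0 + z • a) := by abel
      rw [e]
      exact h4 z hz
    · show qf (F j) (d j) (W j) (h 0 + -l) (w 0) < _
      rw [P.qf_add j (Λ.neg_mem hl)]
      exact h6
    · show _ ≤ qf (F j) (d j) (W j) (h z + -l) (w z)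
      rw [P.qf_add j (Λ.neg_mem hl)]
      exact h9
  choose w h a z ha1 ha2 hcw hln hgd hbd hq0 hzT hzG hqz using hbig
  set 𝒰 : Ultrafilter ℕ := hyperfilter ℕ with h𝒰
  have hle : (𝒰 : Filter ℕ) ≤ atTop := Nat.hyperfilter_le_atTop
  obtain ⟨y, hy⟩ := Spr_lim 𝒰 (fun n => h n 0) hbd
  obtain ⟨b, hb⟩ := Spr_lim 𝒰 a ha2
  obtain ⟨z₁, hz₁⟩ := Spr_lim 𝒰 z hzT
  have hb0 : b ≠ 0 := by
    rintro rfl
    have h1 := ge_of_tendsto' hb.norm ha1
    rw [norm_zero] at h1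
    linarith
  have hρ : Tendsto (fun n : ℕ => (n : ℝ) + 1) 𝒰 atTop :=
    (tendsto_atTop_add_const_right _ _ tendsto_natCast_atTop_atTop).mono_left hle
  have hcv : ∀ R : ℝ, ∀ᶠ n in (𝒰 : Filter ℕ), Cw X F (ball 0 R) (w n) (h n) := by
    intro R
    filter_upwards [hρ.eventually_ge_atTop R] with n hn
    exact (hcw n).mono (ball_subset_ball hn)
  have hinv : Tendsto (fun n : ℕ => 1 / ((n : ℝ) + 1)) 𝒰 (𝓝 0) := tendsto_one_div_add_atTop_nhds_zero_nat.mono_left hle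
  have hh : ∀ R ε : ℝ, 0 < ε → ∀ᶠ n in (𝒰 : Filter ℕ), ∀ z ∈ closedBall (0 : ℂ) R, ‖h n z - (y + z • b)‖ < ε := by
    intro R ε hε
    have h1 : ∀ᶠ n in (𝒰 : Filter ℕ), ‖h n 0 - y‖ < ε / 3 := by
      have := hy.sub_const y
      rw [sub_self] at this
      have h2 := this.norm
      rw [norm_zero] at h2
      exact h2.eventually_lt_const (by positivity)
    have h2 : ∀ᶠ n in (𝒰 : Filter ℕ), ‖a n - b‖ * (|R| + 1) < ε / 3 := by
      have := hb.sub_const b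
      rw [sub_self] at this
      have h3 := this.norm.mul_const (|R| + 1)
      rw [norm_zero, zero_mul] at h3
      exact h3.eventually_lt_const (by positivity)
    filter_upwards [h1, h2, hinv.eventually_lt_const (show (0 : ℝ) < ε / 3 by positivity), hρ.eventually_gt_atTop R] with n h1 h2 h3 h4 v hv
    rw [mem_closedBall_zero_iff] at hv
    have h5 := hln n v (by rw [mem_ball_zero_iff]; linarith)
    have e : h n v - (y + v • b) = (h n v - (h n 0 + v • a n)) + ((h n 0 - y) + v • (a n - b)) := by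
      rw [smul_sub]
      abel
    rw [e]
    refine (norm_add_le _ _).trans_lt ?_
    have h6 := norm_add_le (h n 0 - y) (v • (a n - b))
    rw [norm_smul] at h6
    have h7 : ‖v‖ * ‖a n - b‖ ≤ ‖a n - b‖ * (|R| + 1) := by
      rw [mul_comm]
      refine mul_le_mul_of_nonneg_left ?_ (norm_nonneg _)
      have := le_abs_self R
      linarith
    linarith
  obtain ⟨g, S⟩ := P.exists_ls hb0 𝒰 hcv hh
  -- the point over `0`
  have hyG : y ∈ Gd D δ := (Pool.Agent.TG.gd_closed D δ).mem_of_tendsto hy (Eventually.of_forall hgd)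
  have hyD : y ∉ D := Pool.Agent.TG.gd_notMem hδ hyG
  have hcont : ∀ {p : ℕ → Vd (k + 1)} {x : ℕ → EN N} {p₀ : Vd (k + 1)} {v : EN N}, Tendsto p 𝒰 (𝓝 p₀) → v ≠ 0 → Tendsto x 𝒰 (𝓝 v) →
      Tendsto (fun n => qf (F j) (d j) (W j) (p n) (x n)) 𝒰 (𝓝 (qf (F j) (d j) (W j) p₀ v)) := by
    intro p x p₀ v hp hv hx
    have h1 : ContinuousAt (fun p : Vd (k + 1) × EN N => qf (F j) (d j) (W j) p.1 p.2) (p₀, v) :=
      (P.qf_cont j).continuousAt ((isOpen_ne.preimage continuous_snd).mem_nhds hv)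
    exact Tendsto.comp (g := fun p : Vd (k + 1) × EN N => qf (F j) (d j) (W j) p.1 p.2) (f := fun n => (p n, x n)) h1.tendsto (hp.prodMk_nhds hx)
  have hscal : ∀ (p : Vd (k + 1)) (x : EN N), x ≠ 0 → qf (F j) (d j) (W j) p ((((‖x‖⁻¹ : ℝ)) : ℂ) • x) = qf (F j) (d j) (W j) p x := by
    intro p x hx
    refine P.qf_smul j p ?_ x
    rw [Complex.ofReal_ne_zero]
    exact inv_ne_zero (norm_ne_zero_iff.2 hx)
  have hgc : ∀ z : ℂ, y + z • b ∉ D → ContinuousAt g z := by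
    intro z hz
    obtain ⟨Φ, hΦ, hΦe⟩ := S.lift z hz
    have h1 : ContinuousAt (fun v => pr (Φ v)) z := (Pool.Agent.H62.EF.continuousAt_pr hΦe.self_of_nhds.1).comp hΦ.continuousAt
    exact h1.congr (hΦe.mono fun v hv => hv.2.symm)
  have hHc : Continuous fun z : ℂ => y + z • b := by fun_prop
  have hUo : IsOpen {z : ℂ | y + z • b ∉ D} := P.D_closed.isOpen_compl.preimage hHc
  -- convergence at the moving points
  have hmov : ∀ (v : ℕ → ℂ) (v₀ : ℂ), Tendsto v 𝒰 (𝓝 v₀) → y + v₀ • b ∉ D → Tendsto (fun n => h n (v n)) 𝒰 (𝓝 (y + v₀ • b)) ∧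
      Tendsto (fun n => pr (w n (v n))) 𝒰 (𝓝 (g v₀)) ∧ ∀ᶠ n in (𝒰 : Filter ℕ), w n (v n) ≠ 0 := by
    intro v v₀ hv hv₀
    obtain ⟨s, hs, hsU⟩ := Metric.isOpen_iff.1 hUo v₀ hv₀
    have hK : IsCompact (closedBall v₀ (s / 2)) := isCompact_closedBall _ _
    have hKU : ∀ z ∈ closedBall v₀ (s / 2), y + z • b ∉ D := fun z hz => hsU (closedBall_subset_ball (by linarith) hz)
    have hvK : ∀ᶠ n in (𝒰 : Filter ℕ), v n ∈ closedBall v₀ (s / 2) := hv.eventually (closedBall_mem_nhds v₀ (by positivity))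
    have hvb : ∀ᶠ n in (𝒰 : Filter ℕ), v n ∈ closedBall (0 : ℂ) (‖v₀‖ + 1) := by
      have h1 : ∀ᶠ n in (𝒰 : Filter ℕ), ‖v n‖ < ‖v₀‖ + 1 := hv.norm.eventually_lt_const (by linarith)
      filter_upwards [h1] with n hn
      rw [mem_closedBall_zero_iff]
      exact hn.le
    refine ⟨?_, ?_, ?_⟩
    · have h1 : Tendsto (fun n => y + v n • b) 𝒰 (𝓝 (y + v₀ • b)) := (hHc.tendsto v₀).comp hv
      refine h1.congr_dist ?_
      rw [Metric.tendsto_nhds]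
      intro ε hε
      filter_upwards [hvb, hh (‖v₀‖ + 1) ε hε] with n h2 h3
      rw [dist_zero_right, Real.norm_of_nonneg dist_nonneg, dist_comm, dist_eq_norm]
      exact h3 _ h2
    · have h1 : Tendsto (fun n => g (v n)) 𝒰 (𝓝 (g v₀)) := (hgc v₀ hv₀).tendsto.comp hv
      refine h1.congr_dist ?_
      rw [Metric.tendsto_nhds]
      intro ε hε
      filter_upwards [hvK, S.lim _ hK hKU ε hε] with n h2 h3
      rw [dist_zero_right, Real.norm_of_nonneg dist_nonneg, dist_comm]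
      exact h3 _ h2
    · filter_upwards [hvb, hcv (‖v₀‖ + 2)] with n h2 h3
      refine h3.w_ne _ ?_
      rw [mem_closedBall_zero_iff] at h2
      rw [mem_ball_zero_iff]
      linarith
  have h00 : y + (0 : ℂ) • b = y := by rw [zero_smul, add_zero]
  obtain ⟨e1, e2, e3⟩ := hmov (fun _ => 0) 0 tendsto_const_nhds (by rw [h00]; exact hyD)
  obtain ⟨v, hv0, hvg, hvt⟩ := Spr_vec 𝒰 e3 e2
  have hzero : qf (F j) (d j) (W j) (y + (0 : ℂ) • b) v = 0 := by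
    have h1 := hcont e1 hv0 hvt
    refine tendsto_nhds_unique h1 ?_
    refine squeeze_zero' (Eventually.of_forall fun n => qf_nonneg _ _ _ _ _) ?_ hinv
    filter_upwards [e3] with n hn
    rw [hscal _ _ hn]
    exact (hq0 n).le
  have hF0 : F j (y + (0 : ℂ) • b, v) = 0 := by
    by_contra hne
    exact (P.qf_pos j hv0 hne).ne' hzero
  have hzr := P.ls_zr j hb0 S (z₀ := 0) (by rw [h00]; exact hyD) hv0 hvg hF0
  -- the point over `z₁`
  have hz₁D : y + z₁ • b ∉ D := by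
    have h1 : Tendsto (fun n => h n (z n)) 𝒰 (𝓝 (y + z₁ • b)) := by
      have h2 : Tendsto (fun n => y + z n • b) 𝒰 (𝓝 (y + z₁ • b)) := (hHc.tendsto z₁).comp hz₁
      refine h2.congr_dist ?_
      rw [Metric.tendsto_nhds]
      intro ε hε
      filter_upwards [hh T ε hε] with n h3
      rw [dist_zero_right, Real.norm_of_nonneg dist_nonneg, dist_comm, dist_eq_norm]
      exact h3 _ (by rw [mem_closedBall_zero_iff]; exact hzT n)
    exact Pool.Agent.TG.gd_notMem hδ' ((Pool.Agent.TG.gd_closed D δ').mem_of_tendsto h1 (Eventually.of_forall hzG))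
  obtain ⟨f1, f2, f3⟩ := hmov z z₁ hz₁ hz₁D
  obtain ⟨v', hv0', hvg', hvt'⟩ := Spr_vec 𝒰 f3 f2
  have h1 := hcont f1 hv0' hvt'
  have h2 : c' ≤ qf (F j) (d j) (W j) (y + z₁ • b) v' := by
    refine ge_of_tendsto h1 ?_
    filter_upwards [f3] with n hn
    rw [hscal _ _ hn]
    exact hqz n
  have h3 := hzr z₁ hz₁D v' hv0' hvg'
  have h4 : qf (F j) (d j) (W j) (y + z₁ • b) v' = 0 := by
    unfold qf
    rw [h3, norm_zero, zero_mul, zero_div]
  linarith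

end Pool.Agent.HE
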